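import Mathlib

/-!
# helper54, MN, module MAGNUS: every free group is bi-orderable

Magnus expansion: the free group on `X` acts on functions `List X → ℤ` (formal power series in
noncommuting variables) by left multiplication, the generator `x` acting as multiplication by `1 + x`.
-/

namespace Pool.Agent.H54.Magnus

open Classical

variable {X : Type*}

/-- multiplication by `1 + x` -/
noncomputable def mulX (x : X) (f : List X → ℤ) : List X → ℤ
  | [] => f []
  | y :: w => f (y :: w) + if y = x then f w else 0

/-- multiplication by `(1 + x)⁻¹` -/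
noncomputable def invX (x : X) (f : List X → ℤ) : List X → ℤ
  | [] => f []
  | y :: w => f (y :: w) - if y = x then invX x f w else 0

theorem mulX_invX (x : X) (f : List X → ℤ) : mulX x (invX x f) = f := by
  funext w
  cases w with
  | nil => rfl
  | cons y w =>
    simp only [mulX, invX]
    ring

theorem invX_mulX (x : X) (f : List X → ℤ) : invX x (mulX x f) = f := by
  funext w
  induction w with
  | nil => rfl
  | cons y w ih =>
    simp only [mulX, invX, ih]
    ring

/-- the generator -/
noncomputable def gen (x : X) : Equiv.Perm (List X → ℤ) where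
  toFun := mulX x
  invFun := invX x
  left_inv := invX_mulX x
  right_inv := mulX_invX x

/-- the action -/
noncomputable def rho : FreeGroup X →* Equiv.Perm (List X → ℤ) := FreeGroup.lift gen

theorem rho_of (x : X) (f : List X → ℤ) : rho (FreeGroup.of x) f = mulX x f := by
  simp [rho, gen]

theorem rho_of_inv (x : X) (f : List X → ℤ) : rho (FreeGroup.of x)⁻¹ f = invX x f := by
  rw [map_inv]
  simp only [rho, FreeGroup.lift_apply_of]
  rfl

theorem rho_mul (g h : FreeGroup X) (f : List X → ℤ) : rho (g * h) f = rho g (rho h f) := by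
  rw [map_mul]; rfl

theorem rho_one (f : List X → ℤ) : rho (1 : FreeGroup X) f = f := by
  rw [map_one]; rfl

/-- the unit series -/
noncomputable def del : List X → ℤ := fun w => if w = [] then 1 else 0

theorem del_nil : del ([] : List X) = 1 := if_pos rfl
theorem del_cons (x : X) (w : List X) : del (x :: w) = 0 := if_neg (by simp)

/-- the Magnus expansion -/
noncomputable def mu (g : FreeGroup X) : List X → ℤ := rho g del

/-- convolution -/
noncomputable def conv (f : List X → ℤ) : (List X → ℤ) → List X → ℤ
  | a, [] => a [] * f []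
  | a, x :: w => a [] * f (x :: w) + conv f (fun u => a (x :: u)) w

theorem conv_nil (f a : List X → ℤ) : conv f a [] = a [] * f [] := by rw [conv]
theorem conv_cons (f a : List X → ℤ) (x : X) (w : List X) :
    conv f a (x :: w) = a [] * f (x :: w) + conv f (fun u => a (x :: u)) w := by rw [conv]

theorem conv_add_left (f : List X → ℤ) (a b : List X → ℤ) (w : List X) :
    conv f (fun u => a u + b u) w = conv f a w + conv f b w := by
  induction w generalizing a b with
  | nil => simp only [conv_nil]; ring
  | cons x w ih => simp only [conv_cons]; rw [ih]; ring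

theorem conv_neg_left (f : List X → ℤ) (a : List X → ℤ) (w : List X) :
    conv f (fun u => - a u) w = - conv f a w := by
  induction w generalizing a with
  | nil => simp only [conv_nil]; ring
  | cons x w ih => simp only [conv_cons]; rw [ih]; ring

theorem conv_add_right (f g : List X → ℤ) (a : List X → ℤ) (w : List X) :
    conv (fun u => f u + g u) a w = conv f a w + conv g a w := by
  induction w generalizing a with
  | nil => simp only [conv_nil]; ring
  | cons x w ih => simp only [conv_cons]; rw [ih]; ring

theorem conv_zero_left (f : List X → ℤ) (w : List X) : conv f (fun _ => 0) w = 0 := by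
  induction w with
  | nil => simp only [conv_nil]; ring
  | cons x w ih => simp only [conv_cons]; rw [ih]; ring

theorem conv_del_left (f : List X → ℤ) (w : List X) : conv f del w = f w := by
  cases w with
  | nil => rw [conv_nil, del_nil, one_mul]
  | cons x w =>
    rw [conv_cons, del_nil, one_mul]
    have : (fun u => del (x :: u)) = fun _ : List X => (0 : ℤ) := by
      funext u; exact del_cons x u
    rw [this, conv_zero_left, add_zero]

theorem conv_del_right (a : List X → ℤ) (w : List X) : conv del a w = a w := by
  induction w generalizing a with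
  | nil => rw [conv_nil, del_nil, mul_one]
  | cons x w ih => rw [conv_cons, del_cons, mul_zero, zero_add, ih]

/-- if `f` vanishes on all words not longer than `w`, so does the convolution at `w` -/
theorem conv_eq_zero (f : List X → ℤ) (a : List X → ℤ) (w : List X)
    (h : ∀ v : List X, v.length ≤ w.length → f v = 0) : conv f a w = 0 := by
  induction w generalizing a with
  | nil => rw [conv_nil, h [] le_rfl, mul_zero]
  | cons x w ih =>
    rw [conv_cons, h (x :: w) le_rfl, mul_zero, zero_add]
    exact ih _ (fun v hv => h v (hv.trans (by simp)))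

theorem conv_lead (f : List X → ℤ) (a : List X → ℤ) (w : List X)
    (h : ∀ v : List X, v.length < w.length → f v = 0) : conv f a w = a [] * f w := by
  cases w with
  | nil => rw [conv_nil]
  | cons x w =>
    rw [conv_cons, conv_eq_zero, add_zero]
    intro v hv
    exact h v (by simp; omega)

theorem conv_lead' (f : List X → ℤ) (a : List X → ℤ) (w : List X)
    (h : ∀ v : List X, v.length < w.length → a v = 0) : conv f a w = a w * f [] := by
  induction w generalizing a with
  | nil => rw [conv_nil]
  | cons x w ih =>
    rw [conv_cons, h [] (by simp), zero_mul, zero_add]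
    exact ih _ (fun v hv => h _ (by simp; omega))

theorem conv_mulX (x : X) (f a : List X → ℤ) :
    conv f (mulX x a) = mulX x (conv f a) := by
  funext w
  cases w with
  | nil => simp only [mulX, conv_nil]
  | cons y w =>
    rw [conv_cons]
    simp only [mulX]
    rw [conv_cons, conv_add_left]
    by_cases h : y = x
    · simp only [h, if_true]; ring
    · simp only [h, if_false]
      rw [conv_zero_left]; ring

theorem conv_rho (g : FreeGroup X) : ∀ f a : List X → ℤ, conv f (rho g a) = rho g (conv f a) := by
  induction g using FreeGroup.induction_on with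
  | C1 => intro f a; rw [rho_one, rho_one]
  | of x => intro f a; rw [rho_of, rho_of]; exact conv_mulX x f a
  | inv_of x ih =>
    intro f a
    rw [rho_of_inv, rho_of_inv]
    have := conv_mulX x f (invX x a)
    rw [mulX_invX] at this
    rw [this, invX_mulX]
  | mul g h ihg ihh =>
    intro f a
    rw [rho_mul, rho_mul, ihg, ihh]

theorem rho_eq (g : FreeGroup X) (f : List X → ℤ) : rho g f = conv f (mu g) := by
  unfold mu
  rw [conv_rho]
  congr 1
  funext w
  exact (conv_del_left f w).symm

theorem mu_mul (g h : FreeGroup X) : mu (g * h) = conv (mu h) (mu g) := by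
  rw [mu, rho_mul, ← mu, rho_eq]

theorem mu_one : mu (1 : FreeGroup X) = del := by rw [mu, rho_one]

theorem mu_nil (g : FreeGroup X) : mu g [] = 1 := by
  have key : ∀ g : FreeGroup X, ∀ f : List X → ℤ, rho g f [] = f [] := by
    intro g
    induction g using FreeGroup.induction_on with
    | C1 => intro f; rw [rho_one]
    | of x => intro f; rw [rho_of]; rfl
    | inv_of x ih => intro f; rw [rho_of_inv]; rfl
    | mul g h ihg ihh => intro f; rw [rho_mul, ihg, ihh]
  rw [mu, key, del_nil]

/-! ### injectivity -/

theorem rho_zpow_ne (x : X) (e : ℤ) : ∀ (f : List X → ℤ) (v : List X),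
    (∀ w, v ≠ x :: w) → rho (FreeGroup.of x ^ e) f v = f v := by
  have h1 : ∀ (f : List X → ℤ) (v : List X), (∀ w, v ≠ x :: w) → mulX x f v = f v := by
    intro f v hv
    cases v with
    | nil => rfl
    | cons y w =>
      have : y ≠ x := fun h => hv w (by rw [h])
      simp only [mulX, this, if_false, add_zero]
  have h2 : ∀ (f : List X → ℤ) (v : List X), (∀ w, v ≠ x :: w) → invX x f v = f v := by
    intro f v hv
    rw [← h1 (invX x f) v hv, mulX_invX]
  induction e using Int.induction_on with
  | zero => intro f v _; rw [zpow_zero, rho_one]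
  | succ n ih =>
    intro f v hv
    rw [zpow_add_one, rho_mul, ih _ _ hv, rho_of, h1 _ _ hv]
  | pred n ih =>
    intro f v hv
    rw [zpow_sub_one, rho_mul, ih _ _ hv, rho_of_inv, h2 _ _ hv]

theorem rho_zpow_cons (x : X) (e : ℤ) : ∀ (f : List X → ℤ) (v : List X),
    (∀ w, v ≠ x :: w) → rho (FreeGroup.of x ^ e) f (x :: v) = f (x :: v) + e * f v := by
  have h1 : ∀ (f : List X → ℤ) (v : List X), mulX x f (x :: v) = f (x :: v) + f v := by
    intro f v
    simp only [mulX, if_true]
  have h2 : ∀ (f : List X → ℤ) (v : List X), (∀ w, v ≠ x :: w) →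
      invX x f (x :: v) = f (x :: v) - f v := by
    intro f v hv
    simp only [invX, if_true]
    cases v with
    | nil => rfl
    | cons y w =>
      have : y ≠ x := fun h => hv w (by rw [h])
      simp only [invX, this, if_false, sub_zero]
  have h3 : ∀ (f : List X → ℤ) (v : List X), (∀ w, v ≠ x :: w) → mulX x f v = f v := by
    intro f v hv
    cases v with
    | nil => rfl
    | cons y w =>
      have : y ≠ x := fun h => hv w (by rw [h])
      simp only [mulX, this, if_false, add_zero]
  have h4 : ∀ (f : List X → ℤ) (v : List X), (∀ w, v ≠ x :: w) → invX x f v = f v := by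
    intro f v hv
    rw [← h3 (invX x f) v hv, mulX_invX]
  induction e using Int.induction_on with
  | zero => intro f v _; rw [zpow_zero, rho_one]; ring
  | succ n ih =>
    intro f v hv
    rw [zpow_add_one, rho_mul, ih _ _ hv, rho_of, h1, h3 _ _ hv]; push_cast; ring
  | pred n ih =>
    intro f v hv
    rw [zpow_sub_one, rho_mul, ih _ _ hv, rho_of_inv, h2 _ _ hv, h4 _ _ hv]; push_cast; ring

/-- value of a list of syllables -/
noncomputable def val : List (X × ℤ) → FreeGroup X
  | [] => 1
  | p :: L => FreeGroup.of p.1 ^ p.2 * val L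

theorem mu_val_zero (L : List (X × ℤ)) : ∀ v : List X, v.IsChain (· ≠ ·) →
    L.length < v.length → mu (val L) v = 0 := by
  induction L with
  | nil =>
    intro v _ hlen
    cases v with
    | nil => simp at hlen
    | cons x v => rw [val, mu_one, del_cons]
  | cons p L ih =>
    intro v hv hlen
    rw [val, mu, rho_mul, ← mu]
    by_cases hx : ∃ w, v = p.1 :: w
    · obtain ⟨w, rfl⟩ := hx
      have hw : ∀ u, w ≠ p.1 :: u := by
        rintro u rfl
        rw [List.isChain_cons_cons] at hv
        exact hv.1 rfl
      have hw' : w.IsChain (· ≠ ·) := hv.tail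
      rw [rho_zpow_cons p.1 p.2 _ _ hw, ih _ hv (by simp at hlen ⊢; omega),
        ih w hw' (by simp at hlen ⊢; omega)]
      ring
    · push Not at hx
      rw [rho_zpow_ne p.1 p.2 _ _ hx, ih _ hv (by simp at hlen ⊢; omega)]

theorem mu_val (L : List (X × ℤ)) (hL : (L.map Prod.fst).IsChain (· ≠ ·)) :
    mu (val L) (L.map Prod.fst) = (L.map Prod.snd).prod := by
  induction L with
  | nil => simp [val, mu_one, del_nil]
  | cons p L ih =>
    have hc : (L.map Prod.fst).IsChain (· ≠ ·) := by
      rw [List.map_cons] at hL
      exact hL.tail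
    have hw : ∀ u, L.map Prod.fst ≠ p.1 :: u := by
      intro u hu
      rw [List.map_cons, hu, List.isChain_cons_cons] at hL
      exact hL.1 rfl
    rw [List.map_cons, List.map_cons, val, mu, rho_mul, ← mu, rho_zpow_cons p.1 p.2 _ _ hw, ih hc,
      List.prod_cons, mu_val_zero L _ (by rw [← List.map_cons]; exact hL) (by simp), zero_add]

/-- reduced lists of syllables -/
def Red (L : List (X × ℤ)) : Prop :=
  (L.map Prod.fst).IsChain (· ≠ ·) ∧ ∀ p ∈ L, p.2 ≠ 0

theorem red_tail {p : X × ℤ} {L : List (X × ℤ)} (h : Red (p :: L)) : Red L := by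
  refine ⟨?_, fun q hq => h.2 q (by simp [hq])⟩
  have := h.1
  rw [List.map_cons] at this
  exact this.tail

theorem red_mul (x : X) (e : ℤ) (L : List (X × ℤ)) (hL : Red L) :
    ∃ L', Red L' ∧ val L' = FreeGroup.of x ^ e * val L := by
  by_cases he : e = 0
  · exact ⟨L, hL, by rw [he, zpow_zero, one_mul]⟩
  cases L with
  | nil =>
    refine ⟨[(x, e)], ⟨by simp, ?_⟩, by simp [val]⟩
    intro p hp
    simp at hp
    rw [hp]; exact he
  | cons p L =>
    by_cases hp : p.1 = x
    · by_cases hs : e + p.2 = 0
      · refine ⟨L, red_tail hL, ?_⟩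
        rw [val, ← mul_assoc, hp, ← zpow_add, hs, zpow_zero, one_mul]
      · refine ⟨(x, e + p.2) :: L, ⟨?_, ?_⟩, ?_⟩
        · have := hL.1
          rw [List.map_cons, hp] at this
          rw [List.map_cons]; exact this
        · intro q hq
          rcases List.mem_cons.1 hq with rfl | hq
          · exact hs
          · exact hL.2 q (by simp [hq])
        · rw [val, val, ← mul_assoc, hp, ← zpow_add]
    · refine ⟨(x, e) :: p :: L, ⟨?_, ?_⟩, rfl⟩
      · rw [List.map_cons, List.map_cons, List.isChain_cons_cons]
        refine ⟨fun h => hp h.symm, ?_⟩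
        have := hL.1
        rwa [List.map_cons] at this
      · intro q hq
        rcases List.mem_cons.1 hq with rfl | hq
        · exact he
        · exact hL.2 q hq

theorem exists_red (g : FreeGroup X) : ∃ L, Red L ∧ val L = g := by
  have key : ∀ g : FreeGroup X, ∀ L, Red L → ∃ L', Red L' ∧ val L' = g * val L := by
    intro g
    induction g using FreeGroup.induction_on with
    | C1 => intro L hL; exact ⟨L, hL, by rw [one_mul]⟩
    | of x =>
      intro L hL
      obtain ⟨L', h1, h2⟩ := red_mul x 1 L hL
      exact ⟨L', h1, by rw [h2, zpow_one]⟩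
    | inv_of x _ =>
      intro L hL
      obtain ⟨L', h1, h2⟩ := red_mul x (-1) L hL
      exact ⟨L', h1, by rw [h2, zpow_neg_one]⟩
    | mul g h ihg ihh =>
      intro L hL
      obtain ⟨L₁, h1, h2⟩ := ihh L hL
      obtain ⟨L₂, h3, h4⟩ := ihg L₁ h1
      exact ⟨L₂, h3, by rw [h4, h2, mul_assoc]⟩
  obtain ⟨L, h1, h2⟩ := key g [] ⟨by simp, by simp⟩
  exact ⟨L, h1, by rw [h2, val, mul_one]⟩

theorem mu_injective {g : FreeGroup X} (h : mu g = del) : g = 1 := by
  obtain ⟨L, hL, rfl⟩ := exists_red g
  cases L with
  | nil => rfl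
  | cons p L =>
    exfalso
    have h1 := mu_val (p :: L) hL.1
    rw [h, List.map_cons, del_cons] at h1
    have h2 : ((p :: L).map Prod.snd).prod ≠ 0 := by
      apply List.prod_ne_zero
      intro h0
      obtain ⟨q, hq, hq0⟩ := List.mem_map.1 h0
      exact hL.2 q hq hq0
    exact h2 h1.symm

/-! ### the order -/

/-- order on words: by length, then by an arbitrary well-order -/
def R (v w : List X) : Prop :=
  v.length < w.length ∨ (v.length = w.length ∧ WellOrderingRel v w)

theorem R_wf : WellFounded (R : List X → List X → Prop) := by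
  have h : WellFounded (Prod.Lex (fun a b : ℕ => a < b) (WellOrderingRel : List X → List X → Prop)) :=
    WellFounded.prod_lex Nat.lt_wfRel.wf IsWellFounded.wf
  refine Subrelation.wf (r := InvImage (Prod.Lex (fun a b : ℕ => a < b)
    (WellOrderingRel : List X → List X → Prop)) (fun w => (w.length, w))) ?_ (InvImage.wf _ h)
  intro v w hvw
  rcases hvw with h1 | ⟨h1, h2⟩
  · exact Prod.Lex.left _ _ h1
  · show Prod.Lex _ _ (v.length, v) (w.length, w)
    rw [h1]
    exact Prod.Lex.right _ h2

theorem R_trichotomous (v w : List X) : R v w ∨ v = w ∨ R w v := by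
  rcases lt_trichotomy v.length w.length with h | h | h
  · exact Or.inl (Or.inl h)
  · rcases trichotomous_of (WellOrderingRel : List X → List X → Prop) v w with h' | h' | h'
    · exact Or.inl (Or.inr ⟨h, h'⟩)
    · exact Or.inr (Or.inl h')
    · exact Or.inr (Or.inr (Or.inr ⟨h.symm, h'⟩))
  · exact Or.inr (Or.inr (Or.inl h))

theorem R_trans {u v w : List X} (h1 : R u v) (h2 : R v w) : R u w := by
  rcases h1 with h1 | ⟨h1, h1'⟩
  · rcases h2 with h2 | ⟨h2, _⟩
    · exact Or.inl (h1.trans h2)
    · exact Or.inl (by omega)
  · rcases h2 with h2 | ⟨h2, h2'⟩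
    · exact Or.inl (by omega)
    · exact Or.inr ⟨h1.trans h2, _root_.trans h1' h2'⟩

theorem R_length {u w : List X} (h : R u w) : u.length ≤ w.length := by
  rcases h with h | ⟨h, _⟩ <;> omega

/-- the difference to the unit -/
noncomputable def dd (g : FreeGroup X) : List X → ℤ := fun w => mu g w - del w

/-- `D` vanishes below `w` -/
def Van (D : List X → ℤ) (w : List X) : Prop := ∀ v, R v w → D v = 0

theorem Van.short {D : List X → ℤ} {w v : List X} (h : Van D w) (hv : v.length < w.length) :
    D v = 0 := h v (Or.inl hv)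

/-- positivity -/
def Pos (g : FreeGroup X) : Prop := ∃ w, 0 < dd g w ∧ Van (dd g) w

theorem dd_mul (g h : FreeGroup X) (w : List X) :
    dd (g * h) w = dd g w + conv (dd h) (mu g) w := by
  have e : mu h = fun u => dd h u + del u := by funext u; simp [dd]
  unfold dd
  rw [mu_mul]
  nth_rewrite 1 [e]
  rw [conv_add_right, conv_del_right]
  unfold dd
  ring

theorem dd_mul_lead {g h : FreeGroup X} {w : List X} (hh : ∀ v : List X, v.length < w.length → dd h v = 0) :
    dd (g * h) w = dd g w + dd h w := by
  rw [dd_mul, conv_lead _ _ _ hh, mu_nil, one_mul]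

theorem pos_mul {g h : FreeGroup X} (hg : Pos g) (hh : Pos h) : Pos (g * h) := by
  obtain ⟨w, hw, hw'⟩ := hg
  obtain ⟨v, hv, hv'⟩ := hh
  rcases R_trichotomous w v with h1 | h1 | h1
  · refine ⟨w, ?_, ?_⟩
    · rw [dd_mul_lead (fun u hu => hv' u (R_trans (Or.inl hu) h1)), hv' w h1, add_zero]
      exact hw
    · intro u hu
      rw [dd_mul_lead (fun t ht => hv' t (R_trans (Or.inl ht) (R_trans hu h1))), hw' u hu,
        hv' u (R_trans hu h1), add_zero]
  · subst h1
    refine ⟨w, ?_, ?_⟩
    · rw [dd_mul_lead (fun u hu => hv'.short hu)]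
      exact add_pos hw hv
    · intro u hu
      rw [dd_mul_lead (fun t ht => hv' t (R_trans (Or.inl ht) hu)), hw' u hu, hv' u hu, add_zero]
  · refine ⟨v, ?_, ?_⟩
    · rw [dd_mul_lead (fun u hu => hv'.short hu), hw' v h1, zero_add]
      exact hv
    · intro u hu
      rw [dd_mul_lead (fun t ht => hv' t (R_trans (Or.inl ht) hu)), hv' u hu,
        hw' u (R_trans hu h1), add_zero]

theorem not_pos_one : ¬ Pos (1 : FreeGroup X) := by
  rintro ⟨w, hw, _⟩
  rw [dd, mu_one, sub_self] at hw
  exact lt_irrefl _ hw

theorem dd_inv (g : FreeGroup X) (w : List X) : dd g⁻¹ w = - conv (mu g⁻¹) (dd g) w := by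
  have h1 : conv (mu g⁻¹) (mu g) = del := by rw [← mu_mul, mul_inv_cancel, mu_one]
  have e : mu g = fun u => dd g u + del u := by funext u; simp [dd]
  have h2 : conv (mu g⁻¹) (mu g) w = conv (mu g⁻¹) (dd g) w + mu g⁻¹ w := by
    have h3 : conv (mu g⁻¹) (mu g) w = conv (mu g⁻¹) (fun u => dd g u + del u) w :=
      congrArg (fun a => conv (mu g⁻¹) a w) e
    rw [h3, conv_add_left, conv_del_left]
  rw [h1] at h2
  unfold dd at *
  omega

theorem dd_inv_lead {g : FreeGroup X} {w : List X}
    (h : ∀ v : List X, v.length < w.length → dd g v = 0) : dd g⁻¹ w = - dd g w := by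
  rw [dd_inv, conv_lead' _ _ _ h, mu_nil, mul_one]

theorem pos_or_pos_inv {g : FreeGroup X} (hg : g ≠ 1) : Pos g ∨ Pos g⁻¹ := by
  have hne : {w | dd g w ≠ 0}.Nonempty := by
    by_contra hno
    apply hg
    apply mu_injective
    funext w
    by_contra hw
    apply hno
    refine ⟨w, ?_⟩
    show mu g w - del w ≠ 0
    exact sub_ne_zero.2 hw
  set w := R_wf.min _ hne with hw
  have hw0 : dd g w ≠ 0 := R_wf.min_mem _ hne
  have hvan : Van (dd g) w := by
    intro v hv
    by_contra h0
    exact R_wf.not_lt_min _ (x := v) h0 hv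
  rcases lt_or_gt_of_ne hw0 with h | h
  · right
    refine ⟨w, ?_, ?_⟩
    · rw [dd_inv_lead (fun v hv => hvan.short hv)]
      omega
    · intro v hv
      rw [dd_inv_lead (fun u hu => hvan u (R_trans (Or.inl hu) hv)), hvan v hv, neg_zero]
  · left
    exact ⟨w, h, hvan⟩

theorem dd_conj (g h : FreeGroup X) (w : List X) :
    dd (h * g * h⁻¹) w = conv (conv (mu h⁻¹) (dd g)) (mu h) w := by
  have h1 : conv (mu h⁻¹) (mu h) = del := by rw [← mu_mul, mul_inv_cancel, mu_one]
  have e : mu g = fun u => dd g u + del u := by funext u; simp [dd]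
  have e2 : conv (mu h⁻¹) (mu g) = fun u => conv (mu h⁻¹) (dd g) u + mu h⁻¹ u := by
    funext u
    rw [e, conv_add_left, conv_del_left]
  have h2 : mu (h * g * h⁻¹) w = conv (conv (mu h⁻¹) (dd g)) (mu h) w + del w := by
    rw [mul_assoc, mu_mul, mu_mul, e2, conv_add_right, h1]
  unfold dd at *
  rw [h2]
  ring

theorem pos_conj {g : FreeGroup X} (hg : Pos g) (h : FreeGroup X) : Pos (h * g * h⁻¹) := by
  obtain ⟨w, hw, hw'⟩ := hg
  have key : ∀ v, (v = w ∨ R v w) → dd (h * g * h⁻¹) v = dd g v := by
    intro v hv
    have hlen : ∀ u : List X, u.length < v.length → dd g u = 0 := by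
      intro u hu
      rcases hv with rfl | hv
      · exact hw'.short hu
      · exact hw' u (R_trans (Or.inl hu) hv)
    have hF : ∀ u : List X, u.length ≤ v.length → conv (mu h⁻¹) (dd g) u = dd g u := by
      intro u hu
      rw [conv_lead' _ _ _ (fun t ht => hlen t (by omega)), mu_nil, mul_one]
    rw [dd_conj, conv_lead _ _ _ (fun u hu => by rw [hF u hu.le, hlen u hu]), mu_nil, one_mul,
      hF v le_rfl]
  exact ⟨w, by rw [key w (Or.inl rfl)]; exact hw, fun v hv => by
    rw [key v (Or.inr hv)]; exact hw' v hv⟩

/-- the bi-invariant order -/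
noncomputable def order (X : Type*) : LinearOrder (FreeGroup X) where
  le a b := a = b ∨ Pos (a⁻¹ * b)
  lt a b := Pos (a⁻¹ * b)
  le_refl a := Or.inl rfl
  le_trans a b c := by
    rintro (rfl | h1) (rfl | h2)
    · exact Or.inl rfl
    · exact Or.inr h2
    · exact Or.inr h1
    · right
      have := pos_mul h1 h2
      rwa [show a⁻¹ * b * (b⁻¹ * c) = a⁻¹ * c by group] at this
  lt_iff_le_not_ge a b := by
    constructor
    · intro h
      refine ⟨Or.inr h, ?_⟩
      rintro (rfl | h')
      · rw [inv_mul_cancel] at h
        exact not_pos_one h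
      · have := pos_mul h h'
        rw [show a⁻¹ * b * (b⁻¹ * a) = 1 by group] at this
        exact not_pos_one this
    · rintro ⟨rfl | h, h'⟩
      · exact absurd (Or.inl rfl) h'
      · exact h
  le_antisymm a b := by
    rintro (rfl | h1) h2
    · rfl
    · rcases h2 with rfl | h2
      · rfl
      · have := pos_mul h1 h2
        rw [show a⁻¹ * b * (b⁻¹ * a) = 1 by group] at this
        exact absurd this not_pos_one
  le_total a b := by
    by_cases h : a = b
    · exact Or.inl (Or.inl h)
    · have hne : a⁻¹ * b ≠ 1 := by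
        intro h1
        apply h
        rw [inv_mul_eq_one] at h1
        exact h1
      rcases pos_or_pos_inv hne with h1 | h1
      · exact Or.inl (Or.inr h1)
      · right; right
        rwa [mul_inv_rev, inv_inv] at h1
  toDecidableLE := Classical.decRel _

/-- Magnus: every free group has a bi-invariant linear order. -/
theorem biorder (X : Type*) : ∃ _ : LinearOrder (FreeGroup X),
    MulLeftStrictMono (FreeGroup X) ∧ MulRightStrictMono (FreeGroup X) := by
  refine ⟨order X, ?_, ?_⟩
  · letI := order X
    refine ⟨fun c a b hab => ?_⟩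
    show Pos ((c * a)⁻¹ * (c * b))
    rwa [show (c * a)⁻¹ * (c * b) = a⁻¹ * b by group]
  · letI := order X
    refine ⟨fun c a b hab => ?_⟩
    show Pos ((a * c)⁻¹ * (b * c))
    have hab' : Pos (a⁻¹ * b) := hab
    have := pos_conj hab' c⁻¹
    rwa [show c⁻¹ * (a⁻¹ * b) * c⁻¹⁻¹ = (a * c)⁻¹ * (b * c) by group] at this

end Pool.Agent.H54.Magnus
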