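import Pool.Agent.H54.MN.Inv
import Pool.Agent.H54.MN.Magnus

/-!
# helper54, MN, module API: interface of the field of twisted Malcev-Neumann series

`Series E G L`: `L` is a division ring whose elements are (some) functions `G → E`, containing `E` and
`G`, with the twisted convolution as product. Main theorem `exists_series_freeGroup`: for every
division ring `E` with an action of a free group there is such an `L`.
-/

namespace Pool.Agent.H54.MNS

open Set Function

set_option linter.unusedSectionVars false
set_option linter.unusedVariables false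

section Concrete

variable {E G : Type*} [DivisionRing E] [Group G] [LinearOrder G] [MulSemiringAction G E]
  [MulLeftStrictMono G] [MulRightStrictMono G]

theorem MN.single_add (g : G) (a b : E) : MN.single g (a + b) = MN.single g a + MN.single g b := by
  classical
  ext h
  rw [MN.coeff_add, MN.coeff_single, MN.coeff_single, MN.coeff_single]
  split_ifs
  · rfl
  · rw [add_zero]

theorem MN.single_zero (g : G) : MN.single g (0 : E) = 0 := by
  classical
  ext h
  rw [MN.coeff_zero, MN.coeff_single]
  split_ifs <;> rfl

/-- embedding of the coefficients -/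
noncomputable def MN.C : E →+* MN E G where
  toFun e := MN.single 1 e
  map_one' := rfl
  map_mul' a b := by rw [MN.single_mul_single, one_smul, one_mul]
  map_zero' := MN.single_zero 1
  map_add' a b := MN.single_add 1 a b

/-- embedding of the group -/
noncomputable def MN.U : G →* (MN E G)ˣ where
  toFun g := ⟨MN.single g 1, MN.single g⁻¹ 1,
    by rw [MN.single_mul_single, smul_one, mul_one, mul_inv_cancel]; rfl,
    by rw [MN.single_mul_single, smul_one, mul_one, inv_mul_cancel]; rfl⟩
  map_one' := Units.ext rfl
  map_mul' a b := by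
    apply Units.ext
    show MN.single (a * b) 1 = MN.single a 1 * MN.single b 1
    rw [MN.single_mul_single, smul_one, mul_one]

theorem MN.C_apply (e : E) : MN.C e = (MN.single 1 e : MN E G) := rfl
theorem MN.U_apply (g : G) : ((MN.U g : (MN E G)ˣ) : MN E G) = MN.single g 1 := rfl

theorem MN.U_mul_C (g : G) (e : E) :
    ((MN.U g : (MN E G)ˣ) : MN E G) * MN.C e = MN.C (g • e) * ((MN.U g : (MN E G)ˣ) : MN E G) := by
  rw [MN.C_apply, MN.C_apply, MN.U_apply, MN.single_mul_single, MN.single_mul_single, one_mul,
    mul_one, one_mul, smul_one, mul_one]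

theorem MN.fin_pairs (y z : MN E G) (h : G) :
    {g | y.coeff g ≠ 0 ∧ z.coeff (g⁻¹ * h) ≠ 0}.Finite := fin_div y.wf z.wf h

end Concrete

/-- Abstract interface of the field of twisted series: `c y g` is the coefficient of `y` at `g`. -/
structure Series (E G L : Type*) [DivisionRing E] [Group G] [MulSemiringAction G E]
    [DivisionRing L] where
  /-- coefficients -/
  c : L →+ (G → E)
  c_injective : Function.Injective c
  finite : ∀ (y z : L) (h : G), {g | c y g ≠ 0 ∧ c z (g⁻¹ * h) ≠ 0}.Finite
  c_mul : ∀ (y z : L) (h : G), c (y * z) h = ∑ᶠ g, c y g * g • c z (g⁻¹ * h)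
  /-- embedding of the coefficient field -/
  C : E →+* L
  /-- embedding of the group -/
  U : G →* Lˣ
  c_C_same : ∀ e, c (C e) 1 = e
  c_C_ne : ∀ e h, h ≠ 1 → c (C e) h = 0
  c_U_same : ∀ g, c (U g : L) g = 1
  c_U_ne : ∀ g h, h ≠ g → c (U g : L) h = 0
  U_C : ∀ g e, (U g : L) * C e = C (g • e) * (U g : L)

namespace Series

variable {E G L : Type*} [DivisionRing E] [Group G] [MulSemiringAction G E] [DivisionRing L]
  (S : Series E G L)

theorem c_C_mul (e : E) (z : L) (h : G) : S.c (S.C e * z) h = e * S.c z h := by
  rw [S.c_mul, finsum_eq_single _ 1, S.c_C_same, one_smul, inv_one, one_mul]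
  intro g hg
  rw [S.c_C_ne e g hg, zero_mul]

theorem c_mul_C (y : L) (e : E) (h : G) : S.c (y * S.C e) h = S.c y h * h • e := by
  rw [S.c_mul, finsum_eq_single _ h, inv_mul_cancel, S.c_C_same]
  intro g hg
  rw [S.c_C_ne e (g⁻¹ * h) (by rwa [Ne, inv_mul_eq_one]), smul_zero, mul_zero]

theorem c_U_mul (g : G) (z : L) (h : G) : S.c ((S.U g : L) * z) h = g • S.c z (g⁻¹ * h) := by
  rw [S.c_mul, finsum_eq_single _ g, S.c_U_same, one_mul]
  intro g' hg'
  rw [S.c_U_ne g g' hg', zero_mul]

theorem c_mul_U (y : L) (g : G) (h : G) : S.c (y * (S.U g : L)) h = S.c y (h * g⁻¹) := by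
  rw [S.c_mul, finsum_eq_single _ (h * g⁻¹)]
  · rw [show (h * g⁻¹)⁻¹ * h = g by group, S.c_U_same, smul_one, mul_one]
  · intro g' hg'
    rw [S.c_U_ne g (g'⁻¹ * h), smul_zero, mul_zero]
    rintro rfl
    apply hg'
    group

theorem C_injective : Function.Injective S.C := S.C.injective

theorem U_injective : Function.Injective S.U := by
  intro g g' h
  by_contra hne
  have h1 := S.c_U_same g
  rw [h, S.c_U_ne g' g hne] at h1
  exact zero_ne_one h1

/-- The ring homomorphism from the skew group ring. -/
noncomputable def ofSkew : SkewMonoidAlgebra E G →+* L :=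
  SkewMonoidAlgebra.liftNCRingHom S.C ((Units.coeHom L).comp S.U) (by
    intro x y
    exact (S.U_C y x).symm)

theorem ofSkew_single (g : G) (e : E) : S.ofSkew (SkewMonoidAlgebra.single g e) = S.C e * S.U g := by
  show SkewMonoidAlgebra.liftNC _ _ _ = _
  rw [SkewMonoidAlgebra.liftNC_single]
  rfl

theorem c_ofSkew (a : SkewMonoidAlgebra E G) (h : G) : S.c (S.ofSkew a) h = a.coeff h := by
  classical
  induction a using SkewMonoidAlgebra.induction_on with
  | zero => rw [map_zero, map_zero, SkewMonoidAlgebra.coeff_zero]; rfl
  | single g e =>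
    rw [ofSkew_single, c_C_mul, SkewMonoidAlgebra.coeff_single_apply]
    by_cases hg : g = h
    · subst hg
      rw [if_pos rfl, S.c_U_same, mul_one]
    · rw [if_neg hg, S.c_U_ne g h (Ne.symm hg), mul_zero]
  | add a b ha hb =>
    rw [map_add, map_add, Pi.add_apply, ha, hb, SkewMonoidAlgebra.coeff_add]
    rfl

theorem ofSkew_injective : Function.Injective S.ofSkew := by
  intro a b hab
  apply SkewMonoidAlgebra.ext
  intro h
  rw [← S.c_ofSkew, ← S.c_ofSkew, hab]

end Series

/-- The Malcev-Neumann series over a bi-ordered group. -/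
noncomputable def seriesMN (E G : Type*) [DivisionRing E] [Group G] [LinearOrder G]
    [MulSemiringAction G E] [MulLeftStrictMono G] [MulRightStrictMono G] :
    Series E G (MN E G) where
  c := { toFun := MN.coeff
         map_zero' := rfl
         map_add' := fun _ _ => rfl }
  c_injective := MN.coeff_injective
  finite := MN.fin_pairs
  c_mul := MN.coeff_mul
  C := MN.C
  U := MN.U
  c_C_same e := MN.coeff_single_same 1 e
  c_C_ne e h hh := MN.coeff_single_ne e hh
  c_U_same g := MN.coeff_single_same g 1
  c_U_ne g h hh := MN.coeff_single_ne 1 hh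
  U_C := MN.U_mul_C

universe u v

/-- Every division ring with an action of a bi-orderable group has a series field. -/
theorem exists_series (E : Type u) (G : Type v) [DivisionRing E] [Group G] [MulSemiringAction G E]
    (hG : ∃ _ : LinearOrder G, MulLeftStrictMono G ∧ MulRightStrictMono G) :
    ∃ (L : Type (max u v)) (_ : DivisionRing L), Nonempty (Series E G L) := by
  obtain ⟨o, h1, h2⟩ := hG
  exact ⟨MN E G, inferInstance, ⟨seriesMN E G⟩⟩

/-- Every division ring with an action of a free group has a series field. -/
theorem exists_series_freeGroup (E : Type u) (X : Type v) [DivisionRing E]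
    [MulSemiringAction (FreeGroup X) E] :
    ∃ (L : Type (max u v)) (_ : DivisionRing L), Nonempty (Series E (FreeGroup X) L) :=
  exists_series E (FreeGroup X) (Magnus.biorder X)

end Pool.Agent.H54.MNS
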