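import Pool.Agent.H54.MN.Api

/-!
# helper54, MN, module JINJ: Fox derivatives, the tree lemma, and injectivity of J on the series field

`S : Series E (FreeGroup X) L`. `S.t y z (h, k) = c y h * h • c z k` is the function model of
`y (x)_E z` in `L (x)_E L`.
-/

namespace Pool.Agent.H54.MNS

open Set Function

set_option linter.unusedSectionVars false
set_option linter.unusedVariables false

/-! ### Fox derivatives (with values in functions) -/

section Fox

variable {X : Type*}

open Classical in
/-- one letter -/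
noncomputable def foxGen (y x : X) : Equiv.Perm ((FreeGroup X → ℤ) × FreeGroup X) where
  toFun p := (p.1 - (if x = y then Pi.single ((FreeGroup.of x * p.2)⁻¹) 1 else 0),
    FreeGroup.of x * p.2)
  invFun p := (p.1 + (if x = y then Pi.single (p.2⁻¹) 1 else 0), (FreeGroup.of x)⁻¹ * p.2)
  left_inv := by
    rintro ⟨a, g⟩
    simp
  right_inv := by
    rintro ⟨a, g⟩
    simp

/-- the action -/
noncomputable def foxRho (y : X) : FreeGroup X →* Equiv.Perm ((FreeGroup X → ℤ) × FreeGroup X) :=
  FreeGroup.lift (foxGen y)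

theorem foxRho_of (y x : X) : foxRho y (FreeGroup.of x) = foxGen y x := by
  simp [foxRho]

theorem foxRho_snd (y : X) (g : FreeGroup X) : ∀ p, (foxRho y g p).2 = g * p.2 := by
  induction g using FreeGroup.induction_on with
  | C1 => intro p; rw [map_one, one_mul]; rfl
  | of x => intro p; rw [foxRho_of]; rfl
  | inv_of x ih =>
    intro p
    rw [map_inv, foxRho_of]
    rfl
  | mul g h ihg ihh =>
    intro p
    rw [map_mul, Equiv.Perm.mul_apply, ihg, ihh, mul_assoc]

/-- the Fox derivative -/
noncomputable def fox (y : X) (h : FreeGroup X) : FreeGroup X → ℤ := (foxRho y h⁻¹ (0, 1)).1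

open Classical in
theorem fox_mul_of (y x : X) (h k : FreeGroup X) :
    fox y (h * FreeGroup.of x) k = fox y h k + if x = y ∧ h = k then 1 else 0 := by
  unfold fox
  rw [mul_inv_rev, map_mul, Equiv.Perm.mul_apply]
  set p := foxRho y h⁻¹ (0, 1) with hp
  have h2 : p.2 = h⁻¹ := by rw [hp, foxRho_snd, mul_one]
  rw [map_inv, foxRho_of]
  show (p.1 + (if x = y then Pi.single (p.2⁻¹) 1 else 0) : FreeGroup X → ℤ) k = _
  rw [Pi.add_apply, h2, inv_inv]
  congr 1
  by_cases hx : x = y
  · rw [if_pos hx, Pi.single_apply]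
    by_cases hk : h = k
    · rw [if_pos hk.symm, if_pos ⟨hx, hk⟩]
    · rw [if_neg (Ne.symm hk), if_neg (fun h' => hk h'.2)]
  · rw [if_neg hx, if_neg (fun h' => hx h'.1)]
    rfl

open Classical in
/-- The tree lemma: a finite one-cycle of the Cayley tree of a free group is zero. -/
theorem tree_lemma {A κ : Type*} [AddCommGroup A] (s : Finset κ) (x : κ → X)
    (θ : κ → FreeGroup X → A) (hfin : ∀ k ∈ s, (support (θ k)).Finite)
    (h0 : ∀ h, ∑ k ∈ s, (θ k (h * (FreeGroup.of (x k))⁻¹) - θ k h) = 0)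
    (y : X) (k₀ : FreeGroup X) : ∑ k ∈ s with x k = y, θ k k₀ = 0 := by
  have e1 : ∑ᶠ h, fox y h k₀ • (∑ k ∈ s, (θ k (h * (FreeGroup.of (x k))⁻¹) - θ k h)) = 0 := by
    apply finsum_eq_zero_of_forall_eq_zero
    intro h
    rw [h0, smul_zero]
  have hf1 : ∀ k ∈ s, (support fun h => fox y h k₀ • θ k (h * (FreeGroup.of (x k))⁻¹)).Finite := by
    intro k hk
    refine ((hfin k hk).preimage (f := fun h => h * (FreeGroup.of (x k))⁻¹)
      (mul_left_injective _).injOn).subset ?_
    intro h hh h'
    exact hh (by simp only [h', smul_zero])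
  have hf2 : ∀ k ∈ s, (support fun h => fox y h k₀ • θ k h).Finite := by
    intro k hk
    refine (hfin k hk).subset ?_
    intro h hh h'
    exact hh (by simp only [h', smul_zero])
  have hf3 : ∀ k ∈ s, (support fun h => fox y (h * FreeGroup.of (x k)) k₀ • θ k h).Finite := by
    intro k hk
    refine (hfin k hk).subset ?_
    intro h hh h'
    exact hh (by simp only [h', smul_zero])
  have e2 : ∑ᶠ h, fox y h k₀ • (∑ k ∈ s, (θ k (h * (FreeGroup.of (x k))⁻¹) - θ k h)) =
      ∑ k ∈ s, ∑ᶠ h, (fox y h k₀ • θ k (h * (FreeGroup.of (x k))⁻¹) - fox y h k₀ • θ k h) := by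
    rw [← finsum_sum_comm]
    · refine finsum_congr (fun h => ?_)
      rw [Finset.smul_sum]
      refine Finset.sum_congr rfl (fun k _ => ?_)
      rw [smul_sub]
    · intro k hk
      exact ((hf1 k hk).union (hf2 k hk)).subset (support_sub _ _)
  rw [e1] at e2
  rw [Finset.sum_filter]
  refine (Finset.sum_congr rfl (fun k hk => ?_)).trans e2.symm
  rw [finsum_sub_distrib (hf1 k hk) (hf2 k hk)]
  have e3 : ∑ᶠ h, fox y h k₀ • θ k (h * (FreeGroup.of (x k))⁻¹) =
      ∑ᶠ h, fox y (h * FreeGroup.of (x k)) k₀ • θ k h := by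
    rw [← finsum_comp_equiv (Equiv.mulRight (FreeGroup.of (x k)))]
    refine finsum_congr (fun h => ?_)
    simp only [Equiv.coe_mulRight, mul_inv_cancel_right]
  rw [e3, ← finsum_sub_distrib (hf3 k hk) (hf2 k hk)]
  rw [finsum_eq_single _ k₀]
  · rw [fox_mul_of, add_smul, add_sub_cancel_left]
    by_cases hx : x k = y
    · rw [if_pos hx, if_pos ⟨hx, rfl⟩, one_smul]
    · rw [if_neg hx, if_neg (fun h' => hx h'.1), zero_smul]
  · intro h hh
    rw [fox_mul_of, if_neg (fun h' => hh h'.2), add_zero, sub_self]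

end Fox

/-! ### the function model of the tensor product -/

namespace Series

section Any

variable {E G L : Type*} [DivisionRing E] [Group G] [MulSemiringAction G E] [DivisionRing L]
  (S : Series E G L)

/-- `t y z` models `y (x)_E z`. -/
def t : L →+ L →+ (G × G → E) where
  toFun y :=
    { toFun := fun z p => S.c y p.1 * p.1 • S.c z p.2
      map_zero' := by
        funext p
        rw [map_zero, Pi.zero_apply, smul_zero, mul_zero]
        rfl
      map_add' := by
        intro z w
        funext p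
        rw [map_add, Pi.add_apply, smul_add, mul_add]
        rfl }
  map_zero' := by
    ext z p
    show S.c 0 p.1 * p.1 • S.c z p.2 = 0
    rw [map_zero, Pi.zero_apply, zero_mul]
  map_add' := by
    intro y w
    ext z p
    show S.c (y + w) p.1 * p.1 • S.c z p.2 = S.c y p.1 * p.1 • S.c z p.2 +
      S.c w p.1 * p.1 • S.c z p.2
    rw [map_add, Pi.add_apply, add_mul]

theorem t_apply (y z : L) (p : G × G) : S.t y z p = S.c y p.1 * p.1 • S.c z p.2 := rfl

/-- balanced over `E` -/
theorem t_bal (y : L) (e : E) (z : L) : S.t (y * S.C e) z = S.t y (S.C e * z) := by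
  funext p
  rw [t_apply, t_apply, c_mul_C, c_C_mul, smul_mul', mul_assoc]

/-- left multiplication -/
theorem t_C_mul (y : L) (e : E) (z : L) (p : G × G) : S.t (S.C e * y) z p = e * S.t y z p := by
  rw [t_apply, t_apply, c_C_mul, mul_assoc]

/-- independence -/
theorem t_ind {ι : Type*} (s : Finset ι) (y z : ι → L)
    (hz : ∀ e : ι → E, ∑ i ∈ s, S.C (e i) * z i = 0 → ∀ i ∈ s, e i = 0)
    (h0 : ∑ i ∈ s, S.t (y i) (z i) = 0) : ∀ i ∈ s, y i = 0 := by
  intro i hi
  apply S.c_injective
  rw [map_zero]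
  funext h
  have h1 : ∀ i ∈ s, h⁻¹ • S.c (y i) h = 0 := by
    apply hz
    apply S.c_injective
    rw [map_zero, map_sum]
    funext k
    rw [Finset.sum_apply]
    have h2 := congrFun h0 (h, k)
    rw [Finset.sum_apply] at h2
    simp only [t_apply] at h2
    have h3 : h⁻¹ • (∑ i ∈ s, S.c (y i) h * h • S.c (z i) k) = 0 := by
      rw [h2]; exact smul_zero _
    rw [Finset.smul_sum] at h3
    rw [Pi.zero_apply, ← h3]
    refine Finset.sum_congr rfl (fun i _ => ?_)
    rw [c_C_mul, smul_mul', inv_smul_smul]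
  have h2 := h1 i hi
  have h3 : h • (h⁻¹ • S.c (y i) h) = 0 := by rw [h2, smul_zero]
  rwa [smul_inv_smul] at h3

theorem t_finite (y z : L) (g : G) : (support fun h => S.t y z (h, h⁻¹ * g)).Finite := by
  refine (S.finite y z g).subset ?_
  intro h hh
  refine ⟨fun h' => hh ?_, fun h' => hh ?_⟩
  · show S.t y z (h, h⁻¹ * g) = 0
    rw [t_apply, h', zero_mul]
  · show S.t y z (h, h⁻¹ * g) = 0
    rw [t_apply, h', smul_zero, mul_zero]

theorem t_U (y z : L) (g : G) (p : G × G) :
    S.t (y * (S.U g : L)) (((S.U g)⁻¹ : Lˣ) * z) p = S.t y z (p.1 * g⁻¹, g * p.2) := by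
  rw [← map_inv, t_apply, t_apply, c_mul_U, c_U_mul, smul_smul, inv_inv]

end Any

section Free

variable {E X L : Type*} [DivisionRing E] [MulSemiringAction (FreeGroup X) E] [DivisionRing L]
  (S : Series E (FreeGroup X) L)

open Classical in
/-- J is injective on the series field. -/
theorem t_Jinj {κ : Type*} (s : Finset κ) (x : κ → X) (y z : κ → L)
    (h0 : ∑ k ∈ s, (S.t (y k * (S.U (FreeGroup.of (x k)) : L))
      (((S.U (FreeGroup.of (x k)))⁻¹ : Lˣ) * z k) - S.t (y k) (z k)) = 0) (a : X) :
    ∑ k ∈ s with x k = a, S.t (y k) (z k) = 0 := by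
  funext p
  obtain ⟨h, k⟩ := p
  rw [Finset.sum_apply]
  have key := tree_lemma s x (fun i g => S.t (y i) (z i) (g, g⁻¹ * (h * k)))
    (fun i _ => S.t_finite (y i) (z i) (h * k)) (by
      intro g
      have h1 := congrFun h0 (g, g⁻¹ * (h * k))
      rw [Finset.sum_apply] at h1
      rw [Pi.zero_apply] at h1
      rw [← h1]
      refine Finset.sum_congr rfl (fun i _ => ?_)
      rw [Pi.sub_apply, t_U]
      simp only [mul_inv_rev, inv_inv, mul_assoc]) a h
  simp only [inv_mul_cancel_left] at key
  exact key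

end Free

end Series

end Pool.Agent.H54.MNS
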