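import Pool.Agent.H54.MN.Series

/-!
# helper54, MN, module INV: twisted Malcev-Neumann series form a division ring

For `u` with support in `{g > 1}` the inverse of `1 - u` is the sum over all words `l` of group
elements of the products `c u l = u l₁ * l₁ • (u l₂ * l₂ • ...)`; only finitely many words in the
support of `u` have a given product (module ORDER).
-/

namespace Pool.Agent.H54.MNS

open Set Function

set_option linter.unusedSectionVars false
set_option linter.dupNamespace false

variable {E G : Type*} [DivisionRing E] [Group G] [LinearOrder G] [MulSemiringAction G E]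
  [MulLeftStrictMono G] [MulRightStrictMono G]

/-- coefficient of a word -/
noncomputable def wordC (u : G → E) : List G → E
  | [] => 1
  | g :: l => u g * g • wordC u l

theorem wordC_ne {u : G → E} {l : List G} (h : wordC u l ≠ 0) : ∀ x ∈ l, x ∈ support u := by
  induction l with
  | nil => simp
  | cons a l ih =>
    intro x hx
    have h1 : u a ≠ 0 := fun h0 => h (by simp [wordC, h0])
    have h2 : wordC u l ≠ 0 := fun h0 => h (by simp [wordC, h0])
    rcases List.mem_cons.1 hx with rfl | hx
    · exact h1
    · exact ih h2 x hx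

open Classical in
/-- coefficient function of the geometric series -/
noncomputable def geoFun (u : G → E) (h : G) : E :=
  ∑ᶠ l : List G, if l.prod = h then wordC u l else 0

theorem geo_fin {u : G → E} (hu : (support u).IsWF) (hpos : ∀ x ∈ support u, (1 : G) < x) (h : G)
    [DecidableEq G] :
    (support fun l : List G => if l.prod = h then wordC u l else 0).Finite := by
  refine (fin_lists hu hpos h).subset ?_
  intro l hl
  by_cases hlh : l.prod = h
  · refine ⟨wordC_ne (fun h0 => hl ?_), hlh⟩
    show (if l.prod = h then wordC u l else 0) = 0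
    rw [if_pos hlh, h0]
  · exact absurd (if_neg hlh) hl

theorem wf_closure {s : Set G} (hs : s.IsWF) (hpos : ∀ x ∈ s, (1 : G) < x) :
    {h | ∃ l : List G, (∀ x ∈ l, x ∈ s) ∧ l.prod = h}.IsWF := by
  have e : {h | ∃ l : List G, (∀ x ∈ l, x ∈ s) ∧ l.prod = h} =
      List.prod '' {l : List G | ∀ x, x ∈ l → x ∈ s} := by
    ext h
    rfl
  rw [e]
  apply Set.IsPWO.isWF
  refine (hs.isPWO.partiallyWellOrderedOn_sublistForall₂ (· ≤ ·)).image_of_monotone_on ?_
  intro l₁ _ l₂ hl₂ h12
  rcases sublist_prod h12 (fun x hx => hpos x (hl₂ x hx)) with rfl | h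
  · exact le_rfl
  · exact h.le

theorem geo_wf {u : G → E} (hu : (support u).IsWF) (hpos : ∀ x ∈ support u, (1 : G) < x) :
    (support (geoFun u)).IsWF := by
  classical
  refine (wf_closure hu hpos).mono ?_
  intro h hh
  have : ∃ l : List G, (if l.prod = h then wordC u l else 0) ≠ 0 := by
    by_contra hno
    push Not at hno
    apply hh
    unfold geoFun
    convert finsum_eq_zero_of_forall_eq_zero hno
  obtain ⟨l, hl⟩ := this
  by_cases hlh : l.prod = h
  · rw [if_pos hlh] at hl
    exact ⟨l, wordC_ne hl, hlh⟩
  · exact absurd (if_neg hlh) hl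

/-- the geometric series -/
noncomputable def geo (u : MN E G) (hpos : ∀ x ∈ support u.coeff, (1 : G) < x) : MN E G :=
  ⟨geoFun u.coeff, geo_wf u.wf hpos⟩

theorem geo_eq (u : MN E G) (hpos : ∀ x ∈ support u.coeff, (1 : G) < x) :
    geo u hpos = 1 + u * geo u hpos := by
  classical
  ext h
  rw [MN.coeff_add, MN.coeff_one]
  set F : List G → E := fun l => if l.prod = h then wordC u.coeff l else 0 with hF
  have hfin : (support F).Finite := by
    have := geo_fin u.wf hpos h
    exact this
  have h0 : (geo u hpos).coeff h = ∑ᶠ l, F l := by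
    show geoFun u.coeff h = _
    unfold geoFun
    refine finsum_congr (fun l => ?_)
    simp only [hF]
  rw [h0]
  -- split off the empty word
  have h1 : ∑ᶠ l, F l = F [] + ∑ᶠ p : G × List G, F (p.1 :: p.2) := by
    let e : Option (G × List G) ≃ List G :=
      { toFun := fun o => match o with
          | none => []
          | some p => p.1 :: p.2
        invFun := fun l => match l with
          | [] => none
          | a :: l => some (a, l)
        left_inv := by rintro (_ | ⟨a, l⟩) <;> rfl
        right_inv := by rintro (_ | ⟨a, l⟩) <;> rfl }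
    rw [← finsum_comp_equiv e]
    have hf2 : (support ((fun o => F (e o)) ∘ some)).Finite :=
      hfin.preimage (e.injective.comp (Option.some_injective _)).injOn
    rw [finsum_option hf2]
    rfl
  rw [h1]
  have h2 : F [] = if h = 1 then 1 else 0 := by
    by_cases hh : h = 1
    · rw [if_pos hh]
      exact if_pos (by rw [List.prod_nil, hh])
    · rw [if_neg hh]
      exact if_neg (fun h' => hh (by rw [← h', List.prod_nil]))
  rw [h2]
  congr 1
  have hfin2 : (support fun p : G × List G => F (p.1 :: p.2)).Finite := by
    refine hfin.preimage (f := fun p : G × List G => p.1 :: p.2) ?_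
    rintro ⟨a, l⟩ _ ⟨b, m⟩ _ hab
    simp only [List.cons.injEq] at hab
    rw [hab.1, hab.2]
  rw [finsum_curry _ hfin2, MN.coeff_mul]
  refine finsum_congr (fun g => ?_)
  have h3 : (geo u hpos).coeff (g⁻¹ * h) =
      ∑ᶠ l : List G, if l.prod = g⁻¹ * h then wordC u.coeff l else 0 := by
    show geoFun u.coeff _ = _
    unfold geoFun
    refine finsum_congr (fun l => ?_)
    congr
  rw [h3, smul_finsum_act, mul_finsum]
  refine finsum_congr (fun l => ?_)
  have hFc : F (g :: l) = if (g :: l).prod = h then wordC u.coeff (g :: l) else 0 := rfl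
  rw [hFc]
  by_cases hl : (g :: l).prod = h
  · rw [if_pos hl, if_pos (by rw [← hl, List.prod_cons]; group)]
    rfl
  · rw [if_neg hl, if_neg, smul_zero, mul_zero]
    intro h'
    apply hl
    rw [List.prod_cons, h']; group

theorem geo_right_inv (u : MN E G) (hpos : ∀ x ∈ support u.coeff, (1 : G) < x) :
    (1 - u) * geo u hpos = 1 := by
  have h := geo_eq u hpos
  rw [sub_mul, one_mul]
  nth_rewrite 1 [h]
  rw [add_sub_cancel_right]

theorem exists_right_inv (y : MN E G) (hy : y ≠ 0) : ∃ z : MN E G, y * z = 1 := by
  classical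
  have hne : (support y.coeff).Nonempty := by
    by_contra hno
    rw [Set.not_nonempty_iff_eq_empty, support_eq_empty_iff] at hno
    exact hy (MN.ext (fun g => by rw [hno]; rfl))
  set g₀ := y.wf.min hne with hg₀
  have hg₀m : g₀ ∈ support y.coeff := y.wf.min_mem hne
  have he : y.coeff g₀ ≠ 0 := hg₀m
  -- left inverse monomial
  set m : MN E G := MN.single g₀ (y.coeff g₀) with hm
  set m' : MN E G := MN.single g₀⁻¹ (g₀⁻¹ • (y.coeff g₀)⁻¹) with hm'
  have hm1 : m * m' = 1 := by
    rw [hm, hm', MN.single_mul_single, smul_inv_smul, mul_inv_cancel₀ he, mul_inv_cancel]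
    rfl
  have hm2 : m' * m = 1 := by
    rw [hm, hm', MN.single_mul_single, ← smul_mul', inv_mul_cancel₀ he, smul_one, inv_mul_cancel]
    rfl
  set u : MN E G := 1 - m' * y with hu
  have hpos : ∀ x ∈ support u.coeff, (1 : G) < x := by
    intro x hx
    by_contra hx1
    push Not at hx1
    apply hx
    rw [hu, MN.coeff_sub, hm', MN.coeff_single_mul, inv_inv, MN.coeff_one]
    rcases hx1.lt_or_eq with h | h
    · rw [if_neg h.ne]
      have hno : g₀ * x ∉ support y.coeff := by
        intro hmem
        have h1 : g₀ ≤ g₀ * x := y.wf.min_le hne hmem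
        have h2 : g₀ * x < g₀ := mul_lt_of_lt_one_right' g₀ h
        exact absurd h1 (not_le.2 h2)
      have h0 : y.coeff (g₀ * x) = 0 := by
        by_contra h0
        exact hno h0
      rw [h0, smul_zero, mul_zero, sub_zero]
    · rw [if_pos h, h, mul_one, ← smul_mul', inv_mul_cancel₀ he, smul_one, sub_self]
  have hinv := geo_right_inv u hpos
  have h1u : 1 - u = m' * y := by rw [hu]; abel
  rw [h1u] at hinv
  refine ⟨geo u hpos * m', ?_⟩
  have : y = m * (m' * y) := by rw [← mul_assoc, hm1, one_mul]
  calc y * (geo u hpos * m') = m * (m' * y) * (geo u hpos * m') := by rw [← this]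
    _ = m * ((m' * y) * geo u hpos) * m' := by simp only [mul_assoc]
    _ = 1 := by rw [hinv, mul_one, hm1]

instance : Nontrivial (MN E G) := by
  refine ⟨⟨0, 1, fun h => ?_⟩⟩
  have h1 : (0 : MN E G).coeff 1 = (1 : MN E G).coeff 1 := by rw [h]
  rw [MN.coeff_zero, MN.one_def, MN.coeff_single_same] at h1
  exact zero_ne_one h1

theorem isUnit_or_eq_zero (y : MN E G) : IsUnit y ∨ y = 0 := by
  by_cases hy : y = 0
  · exact Or.inr hy
  · left
    obtain ⟨z, hz⟩ := exists_right_inv y hy
    have hz0 : z ≠ 0 := by
      rintro rfl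
      rw [mul_zero] at hz
      exact zero_ne_one hz
    obtain ⟨w, hw⟩ := exists_right_inv z hz0
    have : y = w := by
      calc y = y * (z * w) := by rw [hw, mul_one]
        _ = w := by rw [← mul_assoc, hz, one_mul]
    refine ⟨⟨y, z, hz, ?_⟩, rfl⟩
    rw [this]; exact hw

noncomputable instance : DivisionRing (MN E G) := DivisionRing.ofIsUnitOrEqZero isUnit_or_eq_zero

end Pool.Agent.H54.MNS
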