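import Mathlib

/-!
# helper54, MN, module ORDER: finiteness lemmas for well ordered subsets of bi-ordered groups
-/

namespace Pool.Agent.H54.MNS

open Set

variable {G : Type*} [Group G] [LinearOrder G] [MulLeftStrictMono G] [MulRightStrictMono G]

theorem isWF_of_strictAnti_finite {α β : Type*} [LinearOrder α] [LinearOrder β] {s : Set α}
    {t : Set β} (hs : s.IsWF) (ht : t.IsWF) (f : α → β)
    (hf : ∀ a b, a < b → f b < f a) : {a | a ∈ s ∧ f a ∈ t}.Finite := by
  set u : Set α := {a | a ∈ s ∧ f a ∈ t} with hu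
  have h1 : u.IsWF := hs.mono (fun a ha => ha.1)
  have i1 : WellFoundedLT u := ⟨h1⟩
  have i2 : WellFoundedGT u := by
    constructor
    have hwf : WellFounded (fun a b : t => a < b) := ht
    refine Subrelation.wf (r := InvImage (fun a b : t => a < b)
      (fun a : u => (⟨f a.1, a.2.2⟩ : t))) ?_ (InvImage.wf _ hwf)
    intro a b hab
    exact hf b.1 a.1 hab
  exact Finite.of_wellFoundedLT_wellFoundedGT u

/-- finitely many factorizations -/
theorem fin_div {s t : Set G} (hs : s.IsWF) (ht : t.IsWF) (h : G) :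
    {g | g ∈ s ∧ g⁻¹ * h ∈ t}.Finite := by
  refine isWF_of_strictAnti_finite hs ht (fun g => g⁻¹ * h) ?_
  intro a b hab
  have h1 : b⁻¹ < a⁻¹ := inv_lt_inv_iff.2 hab
  exact mul_lt_mul_left h1 h

instance (priority := low) leftMono : MulLeftMono G := mulLeftMono_of_mulLeftStrictMono G
instance (priority := low) rightMono : MulRightMono G := mulRightMono_of_mulRightStrictMono G

theorem wf_mul {s t : Set G} (hs : s.IsWF) (ht : t.IsWF) :
    {h | ∃ g ∈ s, ∃ g' ∈ t, g * g' = h}.IsWF := by
  have e : {h | ∃ g ∈ s, ∃ g' ∈ t, g * g' = h} = (fun p : G × G => p.1 * p.2) '' (s ×ˢ t) := by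
    ext h
    constructor
    · rintro ⟨g, hg, g', hg', rfl⟩; exact ⟨(g, g'), ⟨hg, hg'⟩, rfl⟩
    · rintro ⟨⟨g, g'⟩, ⟨hg, hg'⟩, rfl⟩; exact ⟨g, hg, g', hg', rfl⟩
  rw [e]
  refine ((hs.isPWO.prod ht.isPWO).image_of_monotone ?_).isWF
  intro p q hpq
  exact mul_le_mul' hpq.1 hpq.2

theorem sublist_prod {l₁ l₂ : List G} (h : List.SublistForall₂ (· ≤ ·) l₁ l₂)
    (hp : ∀ x ∈ l₂, (1 : G) < x) : l₁ = l₂ ∨ l₁.prod < l₂.prod := by
  induction h with
  | @nil l =>
    cases l with
    | nil => exact Or.inl rfl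
    | cons a l =>
      right
      rw [List.prod_nil, List.prod_cons]
      have ha : (1 : G) < a := hp a (by simp)
      have hl : (1 : G) ≤ l.prod :=
        List.one_le_prod_of_one_le (fun x hx => (hp x (by simp [hx])).le)
      exact one_lt_mul_of_lt_of_le' ha hl
  | @cons a b l₁ l₂ hab _ ih =>
    have ih' := ih (fun x hx => hp x (by simp [hx]))
    rw [List.prod_cons, List.prod_cons]
    rcases ih' with rfl | ih'
    · rcases hab.lt_or_eq with h | h
      · exact Or.inr (mul_lt_mul_left h _)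
      · exact Or.inl (by rw [h])
    · exact Or.inr (mul_lt_mul_of_le_of_lt hab ih')
  | @cons_right a l₁ l₂ _ ih =>
    have ih' := ih (fun x hx => hp x (by simp [hx]))
    right
    rw [List.prod_cons]
    have ha : (1 : G) < a := hp a (by simp)
    have h1 : l₂.prod < a * l₂.prod := lt_mul_of_one_lt_left' _ ha
    rcases ih' with rfl | ih'
    · exact h1
    · exact ih'.trans h1

/-- finitely many words in positive elements with a given product -/
theorem fin_lists {s : Set G} (hs : s.IsWF) (hpos : ∀ x ∈ s, (1 : G) < x) (h : G) :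
    {l : List G | (∀ x ∈ l, x ∈ s) ∧ l.prod = h}.Finite := by
  by_contra hinf
  have hinf : {l : List G | (∀ x ∈ l, x ∈ s) ∧ l.prod = h}.Infinite := hinf
  let f := hinf.natEmbedding
  have hp := (hs.isPWO.partiallyWellOrderedOn_sublistForall₂ (· ≤ ·))
  obtain ⟨m, n, hmn, hle⟩ := hp (fun n => ⟨(f n).1, (f n).2.1⟩)
  have := sublist_prod (l₁ := (f m).1) (l₂ := (f n).1) hle (fun x hx => hpos x ((f n).2.1 x hx))
  rcases this with h1 | h1
  · have : f m = f n := Subtype.ext h1
    exact absurd (f.injective this) hmn.ne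
  · rw [(f m).2.2, (f n).2.2] at h1
    exact lt_irrefl _ h1

end Pool.Agent.H54.MNS
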