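import Pool.Agent.H54.MN.Order

/-!
# helper54, MN, module SERIES: the ring of twisted Malcev-Neumann series

`E` a division ring with an action of the bi-ordered group `G` by ring automorphisms
(`MulSemiringAction G E`). `MN E G` is the ring of functions `y : G → E` with well ordered support and
multiplication `(y * z) h = ∑ g, y g * g • z (g⁻¹ * h)` (a finite sum), i.e. `g e = (g • e) g`.
-/

namespace Pool.Agent.H54.MNS

open Set Function

set_option linter.unusedSectionVars false
set_option linter.dupNamespace false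

section Def

variable (E G : Type*) [DivisionRing E] [Group G] [LinearOrder G]

/-- functions with well ordered support -/
def wfSub : AddSubgroup (G → E) where
  carrier := {y | (support y).IsWF}
  zero_mem' := by
    show (support (0 : G → E)).IsWF
    rw [support_zero]
    exact Set.isWF_empty
  add_mem' := by
    intro y z hy hz
    exact (IsWF.union hy hz).mono (support_add y z)
  neg_mem' := by
    intro y hy
    show (support (-y)).IsWF
    rw [support_neg]
    exact hy

/-- twisted Malcev-Neumann series -/
def MN : Type _ := wfSub E G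

noncomputable instance : AddCommGroup (MN E G) := inferInstanceAs (AddCommGroup (wfSub E G))

variable {E G}

/-- coefficient -/
def MN.coeff (y : MN E G) : G → E := y.1

theorem MN.wf (y : MN E G) : (support y.coeff).IsWF := y.2

@[ext] theorem MN.ext {y z : MN E G} (h : ∀ g, y.coeff g = z.coeff g) : y = z :=
  Subtype.ext (funext h)

/-- constructor -/
def MN.mk (f : G → E) (hf : (support f).IsWF) : MN E G := ⟨f, hf⟩

@[simp] theorem MN.coeff_mk (f : G → E) (hf : (support f).IsWF) : (MN.mk f hf).coeff = f := rfl

@[simp] theorem MN.coeff_zero (g : G) : (0 : MN E G).coeff g = 0 := rfl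
@[simp] theorem MN.coeff_add (y z : MN E G) (g : G) :
    (y + z).coeff g = y.coeff g + z.coeff g := rfl
@[simp] theorem MN.coeff_neg (y : MN E G) (g : G) : (-y).coeff g = - y.coeff g := rfl
@[simp] theorem MN.coeff_sub (y z : MN E G) (g : G) :
    (y - z).coeff g = y.coeff g - z.coeff g := rfl

theorem MN.coeff_injective : Function.Injective (MN.coeff : MN E G → G → E) :=
  Subtype.val_injective

end Def

section Ring

variable {E G : Type*} [DivisionRing E] [Group G] [LinearOrder G] [MulSemiringAction G E]

theorem smul_ne_zero_of {g : G} {e : E} (he : e ≠ 0) : g • e ≠ 0 := by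
  intro h
  apply he
  have : g⁻¹ • (g • e) = g⁻¹ • (0 : E) := by rw [h]
  rwa [inv_smul_smul, smul_zero] at this

/-- the product function -/
noncomputable def mulFun (y z : G → E) (h : G) : E := ∑ᶠ g, y g * g • z (g⁻¹ * h)

variable [MulLeftStrictMono G] [MulRightStrictMono G]

theorem mulFun_support {y z : G → E} (hy : (support y).IsWF) (hz : (support z).IsWF) (h : G) :
    (support fun g => y g * g • z (g⁻¹ * h)).Finite := by
  refine (fin_div hy hz h).subset ?_
  intro g hg
  refine ⟨fun h0 => hg ?_, fun h0 => hg ?_⟩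
  · show y g * _ = 0
    rw [h0, zero_mul]
  · show _ * g • z (g⁻¹ * h) = 0
    rw [h0, smul_zero, mul_zero]

theorem mulFun_wf {y z : G → E} (hy : (support y).IsWF) (hz : (support z).IsWF) :
    (support (mulFun y z)).IsWF := by
  refine (wf_mul hy hz).mono ?_
  intro h hh
  have : ∃ g, y g * g • z (g⁻¹ * h) ≠ 0 := by
    by_contra hno
    push Not at hno
    apply hh
    show (∑ᶠ g, y g * g • z (g⁻¹ * h)) = 0
    rw [finsum_eq_zero_of_forall_eq_zero hno]
  obtain ⟨g, hg⟩ := this
  refine ⟨g, fun h0 => hg (by rw [h0, zero_mul]), g⁻¹ * h, fun h0 => hg ?_, by group⟩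
  rw [h0, smul_zero, mul_zero]

noncomputable instance : Mul (MN E G) := ⟨fun y z => ⟨mulFun y.coeff z.coeff, mulFun_wf y.wf z.wf⟩⟩

theorem MN.coeff_mul (y z : MN E G) (h : G) :
    (y * z).coeff h = ∑ᶠ g, y.coeff g * g • z.coeff (g⁻¹ * h) := rfl

theorem MN.finite_mul (y z : MN E G) (h : G) :
    (support fun g => y.coeff g * g • z.coeff (g⁻¹ * h)).Finite := mulFun_support y.wf z.wf h

open Classical in
/-- monomials -/
noncomputable def MN.single (g : G) (e : E) : MN E G :=
  ⟨Pi.single g e, by
    refine (Set.Finite.isWF (Set.finite_singleton g)).mono ?_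
    exact Pi.support_single_subset⟩

open Classical in
theorem MN.coeff_single (g : G) (e : E) (h : G) :
    (MN.single g e).coeff h = if h = g then e else 0 := by
  show (Pi.single g e : G → E) h = _
  rw [Pi.single_apply]

@[simp] theorem MN.coeff_single_same (g : G) (e : E) : (MN.single g e).coeff g = e := by
  classical
  rw [MN.coeff_single, if_pos rfl]

theorem MN.coeff_single_ne {g h : G} (e : E) (hn : h ≠ g) : (MN.single g e).coeff h = 0 := by
  classical
  rw [MN.coeff_single, if_neg hn]

theorem MN.coeff_single_mul (g : G) (e : E) (z : MN E G) (h : G) :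
    (MN.single g e * z).coeff h = e * g • z.coeff (g⁻¹ * h) := by
  rw [MN.coeff_mul, finsum_eq_single _ g, MN.coeff_single_same]
  intro g' hg'
  rw [MN.coeff_single_ne e hg', zero_mul]

theorem MN.coeff_mul_single (g : G) (e : E) (y : MN E G) (h : G) :
    (y * MN.single g e).coeff h = y.coeff (h * g⁻¹) * (h * g⁻¹) • e := by
  rw [MN.coeff_mul, finsum_eq_single _ (h * g⁻¹)]
  · have : (h * g⁻¹)⁻¹ * h = g := by group
    rw [this, MN.coeff_single_same]
  · intro g' hg'
    have : g'⁻¹ * h ≠ g := by
      rintro rfl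
      apply hg'
      group
    rw [MN.coeff_single_ne e this, smul_zero, mul_zero]

noncomputable instance : One (MN E G) := ⟨MN.single 1 1⟩

theorem MN.one_def : (1 : MN E G) = MN.single 1 1 := rfl

open Classical in
theorem MN.coeff_one (h : G) : (1 : MN E G).coeff h = if h = 1 then 1 else 0 := by
  rw [MN.one_def, MN.coeff_single]

theorem MN.add_mul' (x y z : MN E G) : (x + y) * z = x * z + y * z := by
  ext h
  rw [MN.coeff_add, MN.coeff_mul, MN.coeff_mul, MN.coeff_mul,
    ← finsum_add_distrib (MN.finite_mul x z h) (MN.finite_mul y z h)]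
  refine finsum_congr (fun g => ?_)
  rw [MN.coeff_add, add_mul]

theorem MN.mul_add' (x y z : MN E G) : x * (y + z) = x * y + x * z := by
  ext h
  rw [MN.coeff_add, MN.coeff_mul, MN.coeff_mul, MN.coeff_mul,
    ← finsum_add_distrib (MN.finite_mul x y h) (MN.finite_mul x z h)]
  refine finsum_congr (fun g => ?_)
  rw [MN.coeff_add, smul_add, mul_add]

theorem smul_finsum_act {ι : Type*} (g : G) (f : ι → E) :
    g • (∑ᶠ i, f i) = ∑ᶠ i, g • f i := by
  exact (DistribSMul.toAddMonoidHom E g).map_finsum_of_injective
    (fun a b hab => by simpa using hab) f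

theorem MN.mul_assoc' (x y z : MN E G) : x * y * z = x * (y * z) := by
  ext h
  set F : G × G → E := fun p => x.coeff p.1 * p.1 • y.coeff p.2 * (p.1 * p.2) •
    z.coeff ((p.1 * p.2)⁻¹ * h) with hF
  have hfin : (support F).Finite := by
    have h1 := fin_div (wf_mul x.wf y.wf) z.wf h
    have h2 : (⋃ g ∈ {g | g ∈ {h | ∃ g ∈ support x.coeff, ∃ g' ∈ support y.coeff, g * g' = h} ∧
        g⁻¹ * h ∈ support z.coeff}, (fun k => (k, k⁻¹ * g)) ''
          {k | k ∈ support x.coeff ∧ k⁻¹ * g ∈ support y.coeff}).Finite :=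
      h1.biUnion (fun g _ => (fin_div x.wf y.wf g).image _)
    refine h2.subset ?_
    rintro ⟨k, m⟩ hkm
    have hx : x.coeff k ≠ 0 := fun h0 => hkm (by simp only [hF, h0, zero_mul])
    have hy : y.coeff m ≠ 0 := fun h0 => hkm (by
      simp only [hF, h0, smul_zero, mul_zero, zero_mul])
    have hz : z.coeff ((k * m)⁻¹ * h) ≠ 0 := fun h0 => hkm (by
      simp only [hF, h0, smul_zero, mul_zero])
    refine mem_iUnion₂.2 ⟨k * m, ⟨⟨k, hx, m, hy, rfl⟩, hz⟩, ⟨k, ⟨hx, ?_⟩, ?_⟩⟩
    · show y.coeff (k⁻¹ * (k * m)) ≠ 0
      rwa [inv_mul_cancel_left]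
    · show (k, k⁻¹ * (k * m)) = (k, m)
      rw [inv_mul_cancel_left]
  have hR : (x * (y * z)).coeff h = ∑ᶠ p, F p := by
    rw [finsum_curry F hfin, MN.coeff_mul]
    refine finsum_congr (fun k => ?_)
    rw [MN.coeff_mul, smul_finsum_act, mul_finsum]
    refine finsum_congr (fun m => ?_)
    simp only [hF]
    rw [smul_mul', smul_smul, mul_assoc, mul_inv_rev, mul_assoc m⁻¹]
  have hL : (x * y * z).coeff h = ∑ᶠ p, F p := by
    have hbij : Function.Bijective (fun p : G × G => (p.2, p.2⁻¹ * p.1)) := by
      constructor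
      · rintro ⟨a, b⟩ ⟨c, d⟩ hab
        simp only [Prod.mk.injEq] at hab
        obtain ⟨rfl, h2⟩ := hab
        rw [mul_right_inj] at h2
        rw [h2]
      · rintro ⟨k, m⟩
        exact ⟨(k * m, k), by simp⟩
    rw [← finsum_comp (g := F) (fun p : G × G => (p.2, p.2⁻¹ * p.1)) hbij]
    rw [finsum_curry, MN.coeff_mul]
    · refine finsum_congr (fun g => ?_)
      rw [MN.coeff_mul, finsum_mul]
      refine finsum_congr (fun k => ?_)
      simp only [hF]
      rw [mul_inv_cancel_left]
    · exact hfin.preimage hbij.injective.injOn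
  rw [hL, hR]

noncomputable instance : Ring (MN E G) where
  __ := (inferInstance : AddCommGroup (MN E G))
  mul := (· * ·)
  one := 1
  left_distrib := MN.mul_add'
  right_distrib := MN.add_mul'
  zero_mul := by
    intro z
    ext h
    rw [MN.coeff_mul, MN.coeff_zero]
    exact finsum_eq_zero_of_forall_eq_zero (fun g => by rw [MN.coeff_zero, zero_mul])
  mul_zero := by
    intro z
    ext h
    rw [MN.coeff_mul, MN.coeff_zero]
    exact finsum_eq_zero_of_forall_eq_zero (fun g => by rw [MN.coeff_zero, smul_zero, mul_zero])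
  mul_assoc := MN.mul_assoc'
  one_mul := by
    intro z
    ext h
    rw [MN.one_def, MN.coeff_single_mul, one_mul, one_smul, inv_one, one_mul]
  mul_one := by
    intro z
    ext h
    rw [MN.one_def, MN.coeff_mul_single, inv_one, mul_one, smul_one, mul_one]

theorem MN.single_mul_single (g g' : G) (e e' : E) :
    MN.single g e * MN.single g' e' = MN.single (g * g') (e * g • e') := by
  classical
  ext h
  rw [MN.coeff_single_mul, MN.coeff_single, MN.coeff_single]
  by_cases hh : h = g * g'
  · rw [if_pos hh, if_pos (by rw [hh]; group)]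
  · rw [if_neg hh, if_neg, smul_zero, mul_zero]
    intro h1
    apply hh
    rw [← h1]; group

end Ring

end Pool.Agent.H54.MNS
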